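import Mathlib

/-!
# TANK G, section B: the choice of the linear system (numerical part)

* `exists_start`: if `c₁ s^n ≤ a s ≤ c₂ s^n` for large `s`, then there are arbitrarily large `m`
  with `(n + 5) a ((m + 1) t) < (n + 6) a m t^n` for all large `t`.
* `exists_choice`: the subspace of minimal dimension.
-/

set_option autoImplicit false

namespace Pool.Agent.TG15n

open Filter

/-- Comparison with the limes superior. -/
theorem exists_limsup_bounds (x : ℕ → ℝ) {c₁ c₂ : ℝ} (h1 : 0 < c₁)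
    (hx : ∀ᶠ s in atTop, c₁ ≤ x s ∧ x s ≤ c₂) {δ : ℝ} (hδ : 0 < δ) :
    ∃ L : ℝ, 0 < L ∧ (∀ᶠ s in atTop, x s < L * (1 + δ)) ∧ ∃ᶠ s in atTop, L * (1 - δ) < x s := by
  have hb : IsBoundedUnder (· ≤ ·) atTop x := ⟨c₂, by
    rw [eventually_map]
    exact hx.mono fun s hs => hs.2⟩
  have hb' : IsBoundedUnder (· ≥ ·) atTop x := ⟨c₁, by
    rw [eventually_map]
    exact hx.mono fun s hs => hs.1⟩
  have hL : c₁ ≤ limsup x atTop :=
    le_limsup_of_frequently_le (hx.mono fun s hs => hs.1).frequently hb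
  have hL0 : 0 < limsup x atTop := lt_of_lt_of_le h1 hL
  refine ⟨limsup x atTop, hL0, ?_, ?_⟩
  · exact eventually_lt_of_limsup_lt (by nlinarith) hb
  · exact frequently_lt_of_lt_limsup hb'.isCoboundedUnder_le (by nlinarith)

/-- The constant `δ`. -/
theorem exists_delta (n : ℕ) : ∃ δ : ℝ, 0 < δ ∧ δ < 1 ∧
    ((n : ℝ) + 5) * ((1 + δ) * (1 + δ)) < ((n : ℝ) + 6) * (1 - δ) := by
  have hn : (0 : ℝ) ≤ n := Nat.cast_nonneg n
  set N : ℝ := (n : ℝ) + 6 with hN
  have hN6 : 6 ≤ N := by rw [hN]; linarith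
  have h5 : (n : ℝ) + 5 = N - 1 := by rw [hN]; ring
  refine ⟨1 / (4 * N), by positivity, ?_, ?_⟩
  · rw [div_lt_one (by positivity)]
    linarith
  · rw [h5]
    have hd : 0 < 1 / (4 * N) := by positivity
    have hdN : 1 / (4 * N) * N = 1 / 4 := by
      field_simp
    set d := 1 / (4 * N) with hdd
    have hd1 : d ≤ 1 / 24 := by
      rw [hdd]
      apply one_div_le_one_div_of_le (by norm_num)
      linarith
    nlinarith [mul_pos hd hd, mul_nonneg hd.le (sub_nonneg.2 hd1)]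

/-- `((m + 1) / m)^n ≤ 1 + δ` for large `m`. -/
theorem eventually_pow (n : ℕ) {δ : ℝ} (hδ : 0 < δ) :
    ∀ᶠ m : ℕ in atTop, ((m : ℝ) + 1) ^ n ≤ (1 + δ) * (m : ℝ) ^ n := by
  have h1 : Tendsto (fun m : ℕ => (1 + 1 / (m : ℝ)) ^ n) atTop (nhds ((1 + 0) ^ n)) :=
    (tendsto_const_nhds.add tendsto_one_div_atTop_nhds_zero_nat).pow n
  rw [add_zero, one_pow] at h1
  have h2 : ∀ᶠ m : ℕ in atTop, (1 + 1 / (m : ℝ)) ^ n < 1 + δ :=
    h1.eventually (gt_mem_nhds (by linarith))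
  filter_upwards [h2, eventually_gt_atTop 0] with m hm hm0
  have hm' : (0 : ℝ) < m := Nat.cast_pos.2 hm0
  have h3 : ((m : ℝ) + 1) ^ n = (1 + 1 / (m : ℝ)) ^ n * (m : ℝ) ^ n := by
    rw [← mul_pow]
    congr 1
    field_simp
  rw [h3]
  exact mul_le_mul_of_nonneg_right hm.le (by positivity)

theorem exists_start (n : ℕ) (a : ℕ → ℕ) {c₁ c₂ : ℝ} (h1 : 0 < c₁)
    (ha : ∀ᶠ s : ℕ in atTop, c₁ * (s : ℝ) ^ n ≤ a s ∧ (a s : ℝ) ≤ c₂ * (s : ℝ) ^ n) (m₀ : ℕ) :
    ∃ m : ℕ, m₀ ≤ m ∧ ∀ᶠ t in atTop, (n + 5) * a ((m + 1) * t) < (n + 6) * a m * t ^ n := by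
  obtain ⟨δ, hδ, hδ1, hδ2⟩ := exists_delta n
  obtain ⟨L, hL, hup, hlow⟩ := exists_limsup_bounds (fun s : ℕ => (a s : ℝ) / (s : ℝ) ^ n) h1
    (c₂ := c₂) (by
      filter_upwards [ha, eventually_gt_atTop 0] with s hs hs0
      have hs' : (0 : ℝ) < (s : ℝ) ^ n := by positivity
      exact ⟨(le_div_iff₀ hs').2 hs.1, (div_le_iff₀ hs').2 hs.2⟩) hδ
  obtain ⟨m, ⟨⟨hm1, hm2⟩, hm0⟩, hmm⟩ := ((hlow.and_eventually (eventually_pow n hδ)).and_eventually
    (eventually_gt_atTop 0)).and_eventually (eventually_ge_atTop m₀) |>.exists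
  refine ⟨m, hmm, ?_⟩
  have hm' : (0 : ℝ) < m := Nat.cast_pos.2 hm0
  have hmn : (0 : ℝ) < (m : ℝ) ^ n := by positivity
  have ht : Tendsto (fun t : ℕ => (m + 1) * t) atTop atTop :=
    tendsto_id.const_mul_atTop' (Nat.succ_pos m)
  filter_upwards [ht.eventually hup, eventually_gt_atTop 0] with t ht1 ht0
  have ht' : (0 : ℝ) < (t : ℝ) ^ n := by positivity
  have hmt : (0 : ℝ) < (((m + 1) * t : ℕ) : ℝ) ^ n := by positivity
  have h3 : (a ((m + 1) * t) : ℝ) < L * (1 + δ) * (((m + 1) * t : ℕ) : ℝ) ^ n := by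
    exact (div_lt_iff₀ hmt).1 ht1
  have h4 : L * (1 - δ) * (m : ℝ) ^ n < a m := by
    exact (lt_div_iff₀ hmn).1 hm1
  have h5 : (((m + 1) * t : ℕ) : ℝ) ^ n = ((m : ℝ) + 1) ^ n * (t : ℝ) ^ n := by
    push_cast
    rw [mul_pow]
  rw [h5] at h3
  have hc : ((n + 5 : ℕ) : ℝ) * a ((m + 1) * t) < ((n + 6 : ℕ) : ℝ) * a m * (t : ℝ) ^ n := by
    calc ((n + 5 : ℕ) : ℝ) * a ((m + 1) * t)
        ≤ ((n + 5 : ℕ) : ℝ) * (L * (1 + δ) * (((m : ℝ) + 1) ^ n * (t : ℝ) ^ n)) :=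
          mul_le_mul_of_nonneg_left h3.le (Nat.cast_nonneg _)
      _ ≤ ((n + 5 : ℕ) : ℝ) * (L * (1 + δ) * (((1 + δ) * (m : ℝ) ^ n) * (t : ℝ) ^ n)) := by
          gcongr
      _ = (((n : ℝ) + 5) * ((1 + δ) * (1 + δ))) * (L * (m : ℝ) ^ n * (t : ℝ) ^ n) := by
          push_cast
          ring
      _ ≤ (((n : ℝ) + 6) * (1 - δ)) * (L * (m : ℝ) ^ n * (t : ℝ) ^ n) :=
          mul_le_mul_of_nonneg_right hδ2.le (by positivity)
      _ = ((n + 6 : ℕ) : ℝ) * (L * (1 - δ) * (m : ℝ) ^ n) * (t : ℝ) ^ n := by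
          push_cast
          ring
      _ < ((n + 6 : ℕ) : ℝ) * a m * (t : ℝ) ^ n := by
          have h6 : (0 : ℝ) < ((n + 6 : ℕ) : ℝ) := by positivity
          exact mul_lt_mul_of_pos_right (mul_lt_mul_of_pos_left h4 h6) ht'
  exact_mod_cast hc

section Choice

variable {k K : Type*} [Field k] [Field K] [Algebra k K]

/-- The subspace of minimal dimension. `F W t` is the potential, `A t` a bound for `F S₀ t`. -/
theorem exists_choice (S₀ : Submodule k K) [FiniteDimensional k S₀] (n : ℕ)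
    (F : Submodule k K → ℕ → ℕ) (A : ℕ → ℕ) (hF : ∀ᶠ t in atTop, F S₀ t ≤ A t)
    (hA : ∀ᶠ t in atTop, A t < (n + 6) * Module.finrank k S₀ * t ^ n) :
    ∃ W : Submodule k K, W ≤ S₀ ∧ W ≠ ⊥ ∧ ∀ W' : Submodule k K, W' ≤ W →
      Module.finrank k W' + 1 = Module.finrank k W →
      ∃ᶠ t in atTop, F W t < F W' t + (n + 6) * t ^ n := by
  classical
  -- the property
  set P : Submodule k K → Prop := fun W => W ≤ S₀ ∧ ∃ᶠ t in atTop,
    F W t + (n + 6) * (Module.finrank k S₀ - Module.finrank k W) * t ^ n ≤ F S₀ t with hP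
  have hP0 : P S₀ := ⟨le_rfl, (Eventually.of_forall fun t => by
    rw [Nat.sub_self, mul_zero, zero_mul, add_zero]).frequently⟩
  have hex : ∃ d : ℕ, ∃ W : Submodule k K, P W ∧ Module.finrank k W = d := ⟨_, S₀, hP0, rfl⟩
  obtain ⟨W, hW, hWd⟩ := Nat.find_spec hex
  have hmin : ∀ W' : Submodule k K, P W' → Module.finrank k W ≤ Module.finrank k W' := by
    intro W' hW'
    rw [hWd]
    exact Nat.find_min' hex ⟨W', hW', rfl⟩
  refine ⟨W, hW.1, ?_, ?_⟩
  · rintro rfl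
    obtain ⟨t, h1, h2, h3⟩ := (hW.2.and_eventually (hF.and hA)).exists
    rw [finrank_bot, Nat.sub_zero] at h1
    have := h1.trans h2
    omega
  · intro W' hle hrk
    have hnot : ¬ P W' := by
      intro h
      have := hmin W' h
      omega
    have hnot2 : ∀ᶠ t in atTop, F S₀ t <
        F W' t + (n + 6) * (Module.finrank k S₀ - Module.finrank k W') * t ^ n := by
      have h1 : ¬ ∃ᶠ t in atTop,
          F W' t + (n + 6) * (Module.finrank k S₀ - Module.finrank k W') * t ^ n ≤ F S₀ t :=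
        fun h => hnot ⟨hle.trans hW.1, h⟩
      rw [not_frequently] at h1
      exact h1.mono fun t ht => not_le.1 ht
    refine (hW.2.and_eventually hnot2).mono fun t ht => ?_
    obtain ⟨h1, h2⟩ := ht
    have hd : Module.finrank k W ≤ Module.finrank k S₀ := Submodule.finrank_mono hW.1
    have h3 : Module.finrank k S₀ - Module.finrank k W' =
        (Module.finrank k S₀ - Module.finrank k W) + 1 := by omega
    rw [h3] at h2
    have h4 : (n + 6) * ((Module.finrank k S₀ - Module.finrank k W) + 1) * t ^ n =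
        (n + 6) * (Module.finrank k S₀ - Module.finrank k W) * t ^ n + (n + 6) * t ^ n := by ring
    rw [h4] at h2
    omega

end Choice

end Pool.Agent.TG15n
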